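import Pool.Agent.Mg.Fbe203f.Gf695ac

open Cardinal Set Pool.Agent.MP_be203f_lc.R

universe u

theorem Pool.Agent.Results.MP_be203f_lc.NormalFilter.result (k : Cardinal.{u}) (hk : ℵ₀ < k)
    (h : SqCompact k (2 ^ k)) (S : Set (Set k.ord.ToType)) (hS : #S ≤ Order.succ k) :
    ∃ F : Filter k.ord.ToType, F.NeBot ∧ (∀ x, Ioi x ∈ F) ∧
      (∀ T : Set (Set k.ord.ToType), #T < k → (∀ B ∈ T, B ∈ F) → ⋂₀ T ∈ F) ∧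
      (∀ B : k.ord.ToType → Set k.ord.ToType, (∀ ξ, B ξ ∈ F) → {x | ∀ ξ < x, x ∈ B ξ} ∈ F) ∧
      ∀ B ∈ S, B ∈ F ∨ Bᶜ ∈ F :=
  Pool.Agent.MP_be203f_lc.Z.normal_of_sq hk h S hS
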