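import Pool.Agent.Mg.Fbe203f.Gf65249

open Cardinal Set Pool.Agent.MP_be203f_lc.R

universe u

theorem Pool.Agent.Results.MP_be203f_lc.Reflection.result (k l : Cardinal.{u})
    (hk : k.IsRegular) (hl : l.IsRegular) (hkl : k < l)
    (hpow : ∀ m < l, ∀ t < k, m ^ t < l) (hb : ∀ m < l, BoxCompact k m)
    (S : Set l.ord.ToType) (hS : Clubsuit S) (hcof : ∀ x ∈ S, Order.cof (Iio x) < k)
    (hnr : ∀ d : l.ord.ToType, ℵ₀ < Order.cof (Iio d) → Order.cof (Iio d) < k →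
      ¬ IsStationary (Subtype.val ⁻¹' S : Set (Iio d))) :
    (∀ m < l, SqCompact k m) ∧ ¬ SqCompact k l :=
  main hk hl hkl hpow hb S hS hcof hnr
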