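import Pool.Agent.Mg.Fbe203f.Gd78d38

open Cardinal Set Pool.Agent.MP_be203f_lc.R

universe u

theorem Pool.Agent.Results.MP_be203f_lc.SeparateZFC.result : List.TFAE [
    ∃ k : Cardinal.{u}, ℵ₀ < k ∧ ∀ c : k.ord.ToType → k.ord.ToType → Bool,
      ∃ (H : Set k.ord.ToType) (i : Bool), #H = k ∧ ∀ a ∈ H, ∀ b ∈ H, a < b → c a b = i,
    ∃ k : Cardinal.{u}, ℵ₀ < k ∧ SqCompact k k ∧ ¬ SqCompact k (2 ^ k),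
    ∃ k l m : Cardinal.{u}, ℵ₀ ≤ k ∧ k ≤ l ∧ l < m ∧ SqCompact k l ∧ ¬ SqCompact k m] :=
  Pool.Agent.MP_be203f_lc.Z.sq_tfae
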